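import Mathlib

/-!
# A set in linear general position with an unexpected quintic surface

Forty-six points of the rational curve `(1 : t : t^3 : t^9)` in projective three-space.
-/

namespace Pool.Agent.Results.MP_b2f0ea_ag.PowerCurve

open MvPolynomial

section Defs

variable {K : Type*} [Field K] {n : ℕ}

/-- The homogeneous vanishing ideal of a set `Z` of points of projective `n`-space: the ideal
generated by all forms that vanish at every point of `Z`. -/
noncomputable def vanishingIdeal (Z : Set (Projectivization K (Fin (n + 1) → K))) :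
    Ideal (MvPolynomial (Fin (n + 1)) K) :=
  Ideal.span {F | ∃ e : ℕ, F.IsHomogeneous e ∧ ∀ z ∈ Z, eval z.rep F = 0}

/-- The degree `d` part of an ideal `I`: the space of forms of degree `d` lying in `I`. -/
noncomputable def degreePart (I : Ideal (MvPolynomial (Fin (n + 1)) K)) (d : ℕ) :
    Submodule K (MvPolynomial (Fin (n + 1)) K) :=
  homogeneousSubmodule (Fin (n + 1)) K d ⊓ I.restrictScalars K

/-- `Z` is not contained in a hyperplane: the lines of `K^(n+1)` that are the points of `Z`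
span the whole space. -/
def IsNondegenerate (Z : Set (Projectivization K (Fin (n + 1) → K))) : Prop :=
  (⨆ z ∈ Z, z.submodule) = ⊤

/-- Any `n + 1` distinct points of `Z` are linearly independent, that is, no `n + 1` of them lie
on a hyperplane. -/
def InLinearGeneralPosition (Z : Set (Projectivization K (Fin (n + 1) → K))) : Prop :=
  ∀ f : Fin (n + 1) → Projectivization K (Fin (n + 1) → K),
    Function.Injective f → (∀ i, f i ∈ Z) → Projectivization.Independent f

/-- `Z` admits an unexpected hypersurface of degree `d` with multiplicity `m` at a general point: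
for every `P` outside the zero set of some nonzero form, the forms of degree `d` in
`I_Z ∩ I_P ^ m` make a space of dimension larger than
`max 0 (dim [I_Z]_d - binom(m + n - 1, n))`. -/
def HasUnexpectedHypersurface (Z : Set (Projectivization K (Fin (n + 1) → K))) (d m : ℕ) : Prop :=
  ∃ G : MvPolynomial (Fin (n + 1)) K, G ≠ 0 ∧ (∃ e : ℕ, G.IsHomogeneous e) ∧
    ∀ P : Projectivization K (Fin (n + 1) → K), eval P.rep G ≠ 0 →
      max 0 ((Module.finrank K (degreePart (vanishingIdeal Z) d) : ℤ)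
          - (Nat.choose (m + n - 1) n : ℤ))
        < (Module.finrank K (degreePart (vanishingIdeal Z ⊓ vanishingIdeal {P} ^ m) d) : ℤ)

end Defs

section Vandermonde

open Polynomial in
lemma signVariations_lt (k : ℕ) : ∀ P : ℝ[X], P ≠ 0 → P.support.card = k →
    P.signVariations + 1 ≤ k := by
  induction k with
  | zero =>
    intro P hP h
    exact absurd (Finset.card_eq_zero.1 h) (by simpa using hP)
  | succ k ih =>
    intro P hP h
    by_cases h0 : P.eraseLead = 0
    · have h1 : P = monomial P.natDegree P.leadingCoeff := by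
        conv_lhs => rw [← P.eraseLead_add_monomial_natDegree_leadingCoeff, h0, zero_add]
      rw [h1, signVariations_monomial]
      omega
    · have h2 : P.eraseLead.support.card = k := Polynomial.card_support_eraseLead' h
      have h3 := ih _ h0 h2
      have h4 := signVariations_le_eraseLead_succ P
      omega

/-- exponents of the curve -/
def ex : Fin 4 → ℕ := ![0, 1, 3, 9]

lemma det_real_ne_zero (t : Fin 4 → ℝ) (ht : Function.Injective t) (hpos : ∀ i, 0 < t i) :
    (Matrix.of fun i j => (t i) ^ (ex j)).det ≠ 0 := by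
  intro hdet
  obtain ⟨v, hv0, hv⟩ := Matrix.exists_mulVec_eq_zero_iff.2 hdet
  set P : Polynomial ℝ := ∑ j : Fin 4, Polynomial.monomial (ex j) (v j) with hP
  have hroot : ∀ i, P.eval (t i) = 0 := by
    intro i
    have := congrFun hv i
    simp only [Matrix.mulVec, dotProduct, Matrix.of_apply, Pi.zero_apply] at this
    rw [hP, Polynomial.eval_finsetSum, ← this]
    refine Finset.sum_congr rfl fun j _ => ?_
    rw [Polynomial.eval_monomial]; ring
  have hexinj : Function.Injective ex := by decide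
  have hcoeff : ∀ j, P.coeff (ex j) = v j := by
    intro j
    rw [hP, Polynomial.finsetSum_coeff]
    rw [Finset.sum_eq_single j]
    · simp
    · intro b _ hb
      rw [Polynomial.coeff_monomial, if_neg]
      exact fun h => hb (hexinj h)
    · simp
  have hP0 : P ≠ 0 := by
    intro h
    apply hv0
    funext j
    rw [← hcoeff j, h]; simp
  have hsupp : P.support.card ≤ 4 := by
    have : P.support ⊆ Finset.univ.image ex := by
      intro k hk
      by_contra hk'
      apply Polynomial.mem_support_iff.1 hk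
      rw [hP, Polynomial.finsetSum_coeff]
      refine Finset.sum_eq_zero fun j _ => ?_
      rw [Polynomial.coeff_monomial, if_neg]
      intro h
      exact hk' (Finset.mem_image.2 ⟨j, Finset.mem_univ _, h⟩)
    exact (Finset.card_le_card this).trans (Finset.card_image_le.trans (by simp))
  have h1 := signVariations_lt _ P hP0 rfl
  have h2 := Polynomial.roots_countP_pos_le_signVariations P
  have h3 : 4 ≤ P.roots.countP (0 < ·) := by
    have hsub : (Finset.univ.image t).val ≤ P.roots.filter (0 < ·) := by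
      rw [Multiset.le_iff_subset (Finset.nodup _)]
      intro x hx
      rw [Finset.mem_val, Finset.mem_image] at hx
      obtain ⟨i, -, rfl⟩ := hx
      rw [Multiset.mem_filter]
      exact ⟨(Polynomial.mem_roots hP0).2 (hroot i), hpos i⟩
    have := Multiset.card_le_card hsub
    rw [Multiset.countP_eq_card_filter]
    refine le_trans ?_ this
    rw [Finset.card_val, Finset.card_image_of_injective _ ht]
    simp
  omega

lemma det_field_ne_zero {K : Type*} [Field K] [CharZero K] (t : Fin 4 → ℕ)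
    (ht : Function.Injective t) (hpos : ∀ i, 0 < t i) :
    (Matrix.of fun i j => (t i : K) ^ (ex j)).det ≠ 0 := by
  have h0 : (Matrix.of fun i j => (t i : ℤ) ^ (ex j)).det ≠ 0 := by
    intro h
    have h1 := det_real_ne_zero (fun i => (t i : ℝ)) (fun a b hab => ht (by simpa using hab))
      (fun i => by exact_mod_cast hpos i)
    apply h1
    have h2 := congrArg (Int.castRingHom ℝ) h
    rw [RingHom.map_det, map_zero] at h2
    rw [← h2]
    congr 1
    ext i j
    simp
  intro h
  apply h0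
  have h2 : (Int.castRingHom K) (Matrix.of fun i j => (t i : ℤ) ^ (ex j)).det = 0 := by
    rw [RingHom.map_det, ← h]
    congr 1
    ext i j
    simp
  simpa using h2

end Vandermonde

section Surface

variable {R : Type*} [CommRing R]

/-- coefficient -/
def a1 (p : Fin 4 → R) : R := p 1 ^ 3 - p 0 ^ 2 * p 2
/-- coefficient -/
def b1 (x p : Fin 4 → R) : R := 3 * p 1 ^ 2 * x 1 - (p 0 ^ 2 * x 2 + 2 * p 0 * x 0 * p 2)
/-- coefficient -/
def c1 (x p : Fin 4 → R) : R := 3 * p 1 * x 1 ^ 2 - (2 * p 0 * x 0 * x 2 + x 0 ^ 2 * p 2)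
/-- coefficient -/
def d1 (x : Fin 4 → R) : R := x 1 ^ 3 - x 0 ^ 2 * x 2
/-- coefficient -/
def a2 (p : Fin 4 → R) : R := p 2 ^ 3 - p 0 ^ 2 * p 3
/-- coefficient -/
def b2 (x p : Fin 4 → R) : R := 3 * p 2 ^ 2 * x 2 - (p 0 ^ 2 * x 3 + 2 * p 0 * x 0 * p 3)
/-- coefficient -/
def c2 (x p : Fin 4 → R) : R := 3 * p 2 * x 2 ^ 2 - (2 * p 0 * x 0 * x 3 + x 0 ^ 2 * p 3)
/-- coefficient -/
def d2 (x : Fin 4 → R) : R := x 2 ^ 3 - x 0 ^ 2 * x 3

/-- a minor of the determinant -/
def M1 (x p : Fin 4 → R) : R :=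
  a1 p * b2 x p ^ 2 - a1 p * a2 p * c2 x p - a2 p * b1 x p * b2 x p + a2 p ^ 2 * c1 x p
/-- a minor of the determinant -/
def M2 (x p : Fin 4 → R) : R :=
  a1 p ^ 2 * c2 x p - a1 p * b1 x p * b2 x p + b1 x p ^ 2 * a2 p - a1 p * a2 p * c1 x p
/-- the quintic with a point of multiplicity four at `p` -/
def FF (x p : Fin 4 → R) : R := d1 x * M1 x p + d2 x * M2 x p
/-- the derivative of the quintic in the direction `p` -/
def GG (x p : Fin 4 → R) : R :=
  (a1 p * b2 x p - a2 p * b1 x p) * (a2 p * d1 x - a1 p * d2 x) + c1 x p * M1 x p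
    + c2 x p * M2 x p

lemma FF_add (x p : Fin 4 → R) (l : R) :
    FF (fun i => x i + l * p i) p = FF x p + l * GG x p := by
  have hb1 : b1 (fun i => x i + l * p i) p = b1 x p + 3 * a1 p * l := by
    simp only [b1, a1]; ring
  have hb2 : b2 (fun i => x i + l * p i) p = b2 x p + 3 * a2 p * l := by
    simp only [b2, a2]; ring
  have hc1 : c1 (fun i => x i + l * p i) p = c1 x p + 2 * b1 x p * l + 3 * a1 p * l ^ 2 := by
    simp only [c1, b1, a1]; ring
  have hc2 : c2 (fun i => x i + l * p i) p = c2 x p + 2 * b2 x p * l + 3 * a2 p * l ^ 2 := by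
    simp only [c2, b2, a2]; ring
  have hd1 : d1 (fun i => x i + l * p i)
      = d1 x + c1 x p * l + b1 x p * l ^ 2 + a1 p * l ^ 3 := by
    simp only [d1, c1, b1, a1]; ring
  have hd2 : d2 (fun i => x i + l * p i)
      = d2 x + c2 x p * l + b2 x p * l ^ 2 + a2 p * l ^ 3 := by
    simp only [d2, c2, b2, a2]; ring
  simp only [FF, M1, M2, GG, hb1, hb2, hc1, hc2, hd1, hd2]
  ring

lemma FF_smul (x p : Fin 4 → R) (s : R) : FF (fun i => s * x i) p = s ^ 5 * FF x p := by
  have hb1 : b1 (fun i => s * x i) p = s * b1 x p := by simp only [b1]; ring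
  have hb2 : b2 (fun i => s * x i) p = s * b2 x p := by simp only [b2]; ring
  have hc1 : c1 (fun i => s * x i) p = s ^ 2 * c1 x p := by simp only [c1]; ring
  have hc2 : c2 (fun i => s * x i) p = s ^ 2 * c2 x p := by simp only [c2]; ring
  have hd1 : d1 (fun i => s * x i) = s ^ 3 * d1 x := by simp only [d1]; ring
  have hd2 : d2 (fun i => s * x i) = s ^ 3 * d2 x := by simp only [d2]; ring
  simp only [FF, M1, M2, hb1, hb2, hc1, hc2, hd1, hd2]
  ring

lemma key_identity (x p : Fin 4 → R) :
    p 0 ^ 5 * FF x p = FF (fun i => p 0 * x i - p i * x 0) p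
      + x 0 * GG (fun i => p 0 * x i - p i * x 0) p := by
  rw [← FF_add, ← FF_smul]
  congr 1
  funext i
  ring

lemma mul_mem_pow {J : Ideal R} {x y : R} {m n k : ℕ} (hx : x ∈ J ^ m) (hy : y ∈ J ^ n)
    (h : m + n = k) : x * y ∈ J ^ k := by
  rw [← h, pow_add]
  exact Ideal.mul_mem_mul hx hy

lemma FF_mem (J : Ideal R) (x p : Fin 4 → R) (hx : ∀ i, x i ∈ J) :
    FF x p ∈ J ^ 4 ∧ GG x p ∈ J ^ 4 := by
  have hx1 : ∀ i, x i ∈ J ^ 1 := fun i => by rw [pow_one]; exact hx i
  have hxx : ∀ i j, x i * x j ∈ J ^ 2 := fun i j => mul_mem_pow (hx1 i) (hx1 j) rfl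
  have hxxx : ∀ i j k, x i * x j * x k ∈ J ^ 3 := fun i j k =>
    mul_mem_pow (hxx i j) (hx1 k) rfl
  have hb1 : b1 x p ∈ J ^ 1 := by
    have : b1 x p = (3 * p 1 ^ 2) * x 1 - (p 0 ^ 2 * x 2 + (2 * p 0 * p 2) * x 0) := by
      simp only [b1]; ring
    rw [this]
    exact Ideal.sub_mem _ (Ideal.mul_mem_left _ _ (hx1 1))
      (Ideal.add_mem _ (Ideal.mul_mem_left _ _ (hx1 2)) (Ideal.mul_mem_left _ _ (hx1 0)))
  have hb2 : b2 x p ∈ J ^ 1 := by
    have : b2 x p = (3 * p 2 ^ 2) * x 2 - (p 0 ^ 2 * x 3 + (2 * p 0 * p 3) * x 0) := by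
      simp only [b2]; ring
    rw [this]
    exact Ideal.sub_mem _ (Ideal.mul_mem_left _ _ (hx1 2))
      (Ideal.add_mem _ (Ideal.mul_mem_left _ _ (hx1 3)) (Ideal.mul_mem_left _ _ (hx1 0)))
  have hc1 : c1 x p ∈ J ^ 2 := by
    have : c1 x p = (3 * p 1) * (x 1 * x 1) - ((2 * p 0) * (x 0 * x 2) + p 2 * (x 0 * x 0)) := by
      simp only [c1]; ring
    rw [this]
    exact Ideal.sub_mem _ (Ideal.mul_mem_left _ _ (hxx 1 1))
      (Ideal.add_mem _ (Ideal.mul_mem_left _ _ (hxx 0 2)) (Ideal.mul_mem_left _ _ (hxx 0 0)))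
  have hc2 : c2 x p ∈ J ^ 2 := by
    have : c2 x p = (3 * p 2) * (x 2 * x 2) - ((2 * p 0) * (x 0 * x 3) + p 3 * (x 0 * x 0)) := by
      simp only [c2]; ring
    rw [this]
    exact Ideal.sub_mem _ (Ideal.mul_mem_left _ _ (hxx 2 2))
      (Ideal.add_mem _ (Ideal.mul_mem_left _ _ (hxx 0 3)) (Ideal.mul_mem_left _ _ (hxx 0 0)))
  have hd1 : d1 x ∈ J ^ 3 := by
    have : d1 x = x 1 * x 1 * x 1 - x 0 * x 0 * x 2 := by simp only [d1]; ring
    rw [this]
    exact Ideal.sub_mem _ (hxxx 1 1 1) (hxxx 0 0 2)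
  have hd2 : d2 x ∈ J ^ 3 := by
    have : d2 x = x 2 * x 2 * x 2 - x 0 * x 0 * x 3 := by simp only [d2]; ring
    rw [this]
    exact Ideal.sub_mem _ (hxxx 2 2 2) (hxxx 0 0 3)
  have hM1 : M1 x p ∈ J ^ 2 := by
    have : M1 x p = a1 p * (b2 x p * b2 x p) - a1 p * a2 p * c2 x p
        - a2 p * (b1 x p * b2 x p) + a2 p ^ 2 * c1 x p := by
      simp only [M1]; ring
    rw [this]
    exact Ideal.add_mem _ (Ideal.sub_mem _ (Ideal.sub_mem _
      (Ideal.mul_mem_left _ _ (mul_mem_pow hb2 hb2 rfl)) (Ideal.mul_mem_left _ _ hc2))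
      (Ideal.mul_mem_left _ _ (mul_mem_pow hb1 hb2 rfl))) (Ideal.mul_mem_left _ _ hc1)
  have hM2 : M2 x p ∈ J ^ 2 := by
    have : M2 x p = a1 p ^ 2 * c2 x p - a1 p * (b1 x p * b2 x p) + a2 p * (b1 x p * b1 x p)
        - a1 p * a2 p * c1 x p := by
      simp only [M2]; ring
    rw [this]
    exact Ideal.sub_mem _ (Ideal.add_mem _ (Ideal.sub_mem _
      (Ideal.mul_mem_left _ _ hc2) (Ideal.mul_mem_left _ _ (mul_mem_pow hb1 hb2 rfl)))
      (Ideal.mul_mem_left _ _ (mul_mem_pow hb1 hb1 rfl))) (Ideal.mul_mem_left _ _ hc1)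
  constructor
  · have h5 : FF x p ∈ J ^ 5 :=
      Ideal.add_mem _ (mul_mem_pow hd1 hM1 rfl) (mul_mem_pow hd2 hM2 rfl)
    exact Ideal.pow_le_pow_right (by norm_num) h5
  · refine Ideal.add_mem _ (Ideal.add_mem _ ?_ (mul_mem_pow hc1 hM1 rfl))
      (mul_mem_pow hc2 hM2 rfl)
    refine mul_mem_pow (m := 1) (n := 3) ?_ ?_ rfl
    · exact Ideal.sub_mem _ (Ideal.mul_mem_left _ _ hb2) (Ideal.mul_mem_left _ _ hb1)
    · exact Ideal.sub_mem _ (Ideal.mul_mem_left _ _ hd1) (Ideal.mul_mem_left _ _ hd2)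

lemma map_FF {S : Type*} [CommRing S] (f : R →+* S) (x p : Fin 4 → R) :
    f (FF x p) = FF (fun i => f (x i)) (fun i => f (p i)) := by
  simp only [FF, M1, M2, a1, b1, c1, d1, a2, b2, c2, d2, map_add, map_sub, map_mul, map_pow,
    map_ofNat]

end Surface

section Geometry

variable {K : Type*} [Field K]

lemma eval_smul_of_isHomogeneous {n : ℕ} {F : MvPolynomial (Fin n) K} {e : ℕ}
    (hF : F.IsHomogeneous e) (a : K) (v : Fin n → K) :
    eval (a • v) F = a ^ e * eval v F := by
  rw [eval_eq', eval_eq', Finset.mul_sum]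
  refine Finset.sum_congr rfl fun d hd => ?_
  have h1 : ∑ i, d i = e := by
    have := hF.degree_eq_sum_deg_support hd
    rw [this]
    symm
    refine Finset.sum_subset (Finset.subset_univ _) fun i _ hi => ?_
    simpa using hi
  simp only [Pi.smul_apply, smul_eq_mul, mul_pow, Finset.prod_mul_distrib]
  rw [Finset.prod_pow_eq_pow_sum, h1]
  ring

lemma eval_rep_mk {n : ℕ} {F : MvPolynomial (Fin n) K} {e : ℕ}
    (hF : F.IsHomogeneous e) (v : Fin n → K) (hv : v ≠ 0) :
    eval (Projectivization.mk K v hv).rep F = 0 ↔ eval v F = 0 := by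
  obtain ⟨a, ha⟩ := Projectivization.exists_smul_eq_mk_rep K v hv
  rw [← ha]
  have : (a • v : Fin n → K) = (a : K) • v := rfl
  rw [this, eval_smul_of_isHomogeneous hF]
  simp

/-- the vector of the point with parameter `t` -/
def vec (K : Type*) [Field K] (t : ℕ) : Fin 4 → K := fun j => (t : K) ^ (ex j)

lemma vec_ne_zero (t : ℕ) : vec K t ≠ 0 := by
  intro h
  have := congrFun h 0
  simp [vec, ex] at this

/-- the point with parameter `t` -/
noncomputable def pt (K : Type*) [Field K] (t : ℕ) : Projectivization K (Fin 4 → K) :=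
  Projectivization.mk K (vec K t) (vec_ne_zero t)

/-- forty-six points -/
def ZZ (K : Type*) [Field K] : Set (Projectivization K (Fin (3 + 1) → K)) :=
  pt K '' Set.Icc 1 46

lemma ZZ_finite : (ZZ K).Finite := (Set.finite_Icc 1 46).image _

lemma independent_pt [CharZero K] (t : Fin 4 → ℕ) (ht : Function.Injective t)
    (hpos : ∀ i, 0 < t i) : LinearIndependent K (fun i => vec K (t i)) := by
  have h := det_field_ne_zero (K := K) t ht hpos
  have h2 := Matrix.linearIndependent_rows_of_det_ne_zero h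
  exact h2

lemma ZZ_lgp [CharZero K] : InLinearGeneralPosition (ZZ K) := by
  intro f hf hfZ
  choose t ht htf using hfZ
  have htinj : Function.Injective t := by
    intro a b hab
    apply hf
    rw [← htf a, ← htf b, hab]
  have h := independent_pt (K := K) t htinj (fun i => (ht i).1)
  have h2 := Projectivization.Independent.mk (fun i => vec K (t i)) (fun i => vec_ne_zero (t i)) h
  have h3 : (fun i => Projectivization.mk K (vec K (t i)) (vec_ne_zero (t i))) = f :=
    funext fun i => htf i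
  rw [h3] at h2
  exact h2

lemma ZZ_nondeg [CharZero K] : IsNondegenerate (ZZ K) := by
  set t : Fin 4 → ℕ := fun i => i + 1 with ht
  have htinj : Function.Injective t := by
    intro a b hab
    simp only [ht] at hab
    exact Fin.ext (by omega)
  have h := independent_pt (K := K) t htinj (fun i => by simp [ht])
  have hspan := h.span_eq_top_of_card_eq_finrank (by simp)
  rw [IsNondegenerate, eq_top_iff, ← hspan, Submodule.span_le]
  rintro _ ⟨i, rfl⟩
  have hmem : pt K (t i) ∈ ZZ K := by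
    refine ⟨t i, ?_, rfl⟩
    fin_cases i <;> simp [ht]
  have h1 : (pt K (t i)).submodule ≤ ⨆ z ∈ ZZ K, z.submodule :=
    le_iSup₂_of_le (pt K (t i)) hmem le_rfl
  apply h1
  rw [pt, Projectivization.submodule_mk]
  exact Submodule.mem_span_singleton_self _

/-- the quintic form attached to a point -/
noncomputable def quintic (p : Fin 4 → K) : MvPolynomial (Fin (3 + 1)) K :=
  FF (fun i => X i) (fun i => C (p i))

lemma quintic_isHomogeneous (p : Fin 4 → K) : (quintic p).IsHomogeneous 5 := by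
  have hx : ∀ i : Fin 4, (X i : MvPolynomial (Fin (3 + 1)) K).IsHomogeneous 1 :=
    fun i => isHomogeneous_X _ _
  have hC : ∀ (c : K) {F : MvPolynomial (Fin (3 + 1)) K} {m : ℕ}, F.IsHomogeneous m →
    (C c * F).IsHomogeneous m := fun c F m hF => hF.C_mul c
  have hxx : ∀ i j : Fin 4, (X i * X j : MvPolynomial (Fin (3 + 1)) K).IsHomogeneous 2 :=
    fun i j => (hx i).mul (hx j)
  have hxxx : ∀ i j k : Fin 4,
      (X i * X j * X k : MvPolynomial (Fin (3 + 1)) K).IsHomogeneous 3 :=
    fun i j k => (hxx i j).mul (hx k)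
  set x : Fin 4 → MvPolynomial (Fin (3 + 1)) K := fun i => X i with hxdef
  set q : Fin 4 → MvPolynomial (Fin (3 + 1)) K := fun i => C (p i) with hq
  have hb1 : (b1 x q).IsHomogeneous 1 := by
    have : b1 x q = C (3 * p 1 ^ 2) * X 1 - (C (p 0 ^ 2) * X 2 + C (2 * p 0 * p 2) * X 0) := by
      simp only [b1, hxdef, hq, map_mul, map_pow, map_ofNat]; ring
    rw [this]
    exact (hC _ (hx 1)).sub ((hC _ (hx 2)).add (hC _ (hx 0)))
  have hb2 : (b2 x q).IsHomogeneous 1 := by
    have : b2 x q = C (3 * p 2 ^ 2) * X 2 - (C (p 0 ^ 2) * X 3 + C (2 * p 0 * p 3) * X 0) := by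
      simp only [b2, hxdef, hq, map_mul, map_pow, map_ofNat]; ring
    rw [this]
    exact (hC _ (hx 2)).sub ((hC _ (hx 3)).add (hC _ (hx 0)))
  have hc1 : (c1 x q).IsHomogeneous 2 := by
    have : c1 x q = C (3 * p 1) * (X 1 * X 1)
        - (C (2 * p 0) * (X 0 * X 2) + C (p 2) * (X 0 * X 0)) := by
      simp only [c1, hxdef, hq, map_mul, map_ofNat]; ring
    rw [this]
    exact (hC _ (hxx 1 1)).sub ((hC _ (hxx 0 2)).add (hC _ (hxx 0 0)))
  have hc2 : (c2 x q).IsHomogeneous 2 := by
    have : c2 x q = C (3 * p 2) * (X 2 * X 2)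
        - (C (2 * p 0) * (X 0 * X 3) + C (p 3) * (X 0 * X 0)) := by
      simp only [c2, hxdef, hq, map_mul, map_ofNat]; ring
    rw [this]
    exact (hC _ (hxx 2 2)).sub ((hC _ (hxx 0 3)).add (hC _ (hxx 0 0)))
  have hd1 : (d1 x).IsHomogeneous 3 := by
    have : d1 x = X 1 * X 1 * X 1 - X 0 * X 0 * X 2 := by simp only [d1, hxdef]; ring
    rw [this]
    exact (hxxx 1 1 1).sub (hxxx 0 0 2)
  have hd2 : (d2 x).IsHomogeneous 3 := by
    have : d2 x = X 2 * X 2 * X 2 - X 0 * X 0 * X 3 := by simp only [d2, hxdef]; ring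
    rw [this]
    exact (hxxx 2 2 2).sub (hxxx 0 0 3)
  have ha1 : a1 q = C (a1 p) := by simp [a1, hq]
  have ha2 : a2 q = C (a2 p) := by simp [a2, hq]
  have hM1 : (M1 x q).IsHomogeneous 2 := by
    have : M1 x q = C (a1 p) * (b2 x q * b2 x q) - C (a1 p * a2 p) * c2 x q
        - C (a2 p) * (b1 x q * b2 x q) + C (a2 p ^ 2) * c1 x q := by
      simp only [M1, ha1, ha2, map_mul, map_pow]; ring
    rw [this]
    exact (((hC _ (hb2.mul hb2)).sub (hC _ hc2)).sub (hC _ (hb1.mul hb2))).add (hC _ hc1)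
  have hM2 : (M2 x q).IsHomogeneous 2 := by
    have : M2 x q = C (a1 p ^ 2) * c2 x q - C (a1 p) * (b1 x q * b2 x q)
        + C (a2 p) * (b1 x q * b1 x q) - C (a1 p * a2 p) * c1 x q := by
      simp only [M2, ha1, ha2, map_mul, map_pow]; ring
    rw [this]
    exact (((hC _ hc2).sub (hC _ (hb1.mul hb2))).add (hC _ (hb1.mul hb1))).sub (hC _ hc1)
  exact (hd1.mul hM1).add (hd2.mul hM2)

lemma eval_quintic (p v : Fin 4 → K) : eval v (quintic p) = FF v p := by
  rw [quintic, map_FF]
  simp

lemma FF_vec (p : Fin 4 → K) (t : ℕ) : FF (vec K t) p = 0 := by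
  have h1 : d1 (vec K t) = 0 := by simp [d1, vec, ex]
  have h2 : d2 (vec K t) = 0 := by simp only [d2, vec, ex]; simp; ring
  simp [FF, h1, h2]

lemma quintic_mem_vanishing (p : Fin 4 → K) : quintic p ∈ vanishingIdeal (ZZ K) := by
  apply Ideal.subset_span
  refine ⟨5, quintic_isHomogeneous p, ?_⟩
  rintro _ ⟨t, -, rfl⟩
  rw [pt, eval_rep_mk (quintic_isHomogeneous p), eval_quintic, FF_vec]

lemma quintic_mem_pow (P : Projectivization K (Fin (3 + 1) → K)) (h0 : P.rep 0 ≠ 0) :
    quintic P.rep ∈ vanishingIdeal {P} ^ 4 := by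
  set J : Ideal (MvPolynomial (Fin (3 + 1)) K) := vanishingIdeal {P} with hJ
  set x : Fin 4 → MvPolynomial (Fin (3 + 1)) K := fun i => X i with hxdef
  set q : Fin 4 → MvPolynomial (Fin (3 + 1)) K := fun i => C (P.rep i) with hq
  have hkey := key_identity x q
  have hmem : ∀ i, q 0 * x i - q i * x 0 ∈ J := by
    intro i
    apply Ideal.subset_span
    refine ⟨1, ?_, ?_⟩
    · exact ((isHomogeneous_X K i).C_mul _).sub ((isHomogeneous_X K 0).C_mul _)
    · intro z hz
      rw [Set.mem_singleton_iff] at hz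
      subst hz
      simp only [hq, hxdef, map_sub, map_mul, eval_C, eval_X]
      ring
  have h1 := FF_mem J (fun i => q 0 * x i - q i * x 0) q hmem
  have h2 : q 0 ^ 5 * FF x q ∈ J ^ 4 := by
    rw [hkey]
    exact Ideal.add_mem _ h1.1 (Ideal.mul_mem_left _ _ h1.2)
  have h3 : FF x q = C ((P.rep 0)⁻¹ ^ 5) * (q 0 ^ 5 * FF x q) := by
    rw [← mul_assoc]
    have : C ((P.rep 0)⁻¹ ^ 5) * q 0 ^ 5 = 1 := by
      simp only [hq]
      rw [← map_pow, ← map_mul, ← mul_pow, inv_mul_cancel₀ h0, one_pow, map_one]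
    rw [this, one_mul]
  have h4 : quintic P.rep = FF x q := rfl
  rw [h4, h3]
  exact Ideal.mul_mem_left _ _ h2

/-- the form off whose zero set the quintic is nonzero -/
noncomputable def GP (K : Type*) [Field K] : MvPolynomial (Fin (3 + 1)) K :=
  X 0 * X 1 * (X 2 ^ 3 - X 0 ^ 2 * X 3)

lemma GP_isHomogeneous : (GP K).IsHomogeneous 5 := by
  have hx : ∀ i : Fin (3 + 1), (X i : MvPolynomial (Fin (3 + 1)) K).IsHomogeneous 1 :=
    fun i => isHomogeneous_X _ _
  have h1 : (X 2 ^ 3 - X 0 ^ 2 * X 3 : MvPolynomial (Fin (3 + 1)) K).IsHomogeneous 3 :=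
    ((hx 2).pow 3).sub (((hx 0).pow 2).mul (hx 3))
  exact ((hx 0).mul (hx 1)).mul h1

lemma GP_ne_zero : GP K ≠ 0 := by
  intro h
  have := congrArg (eval (![1, 1, 1, 0] : Fin (3 + 1) → K)) h
  simp [GP] at this

lemma quintic_ne_zero [CharZero K] (p : Fin 4 → K) (hp : eval p (GP K) ≠ 0) :
    quintic p ≠ 0 := by
  intro h
  apply hp
  have h1 := congrArg (eval (![0, 1, 0, 0] : Fin 4 → K)) h
  rw [eval_quintic, map_zero] at h1
  have h2 : FF ![0, 1, 0, 0] p = 3 * p 1 * (p 2 ^ 3 - p 0 ^ 2 * p 3) ^ 2 := by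
    simp only [FF, M1, M2, a1, b1, c1, d1, a2, b2, c2, d2, Matrix.cons_val_zero,
      Matrix.cons_val_one, Matrix.cons_val]
    ring
  rw [h2] at h1
  simp only [GP, map_mul, map_sub, map_pow, eval_X]
  rcases mul_eq_zero.1 h1 with h3 | h3
  · rcases mul_eq_zero.1 h3 with h4 | h4
    · exact absurd h4 (by norm_num)
    · rw [h4]; ring
  · rw [pow_eq_zero_iff (by norm_num)] at h3
    rw [h3]; ring

end Geometry

section Dimension

variable {K : Type*} [Field K]

/-- weight of an exponent -/
def wt (d : Fin (3 + 1) →₀ ℕ) : ℕ := d 1 + 3 * d 2 + 9 * d 3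

lemma sum_of_mem {F : MvPolynomial (Fin (3 + 1)) K} (hF : F.IsHomogeneous 5)
    {d : Fin (3 + 1) →₀ ℕ} (hd : d ∈ F.support) : d 0 + d 1 + d 2 + d 3 = 5 := by
  have := hF.degree_eq_sum_deg_support hd
  rw [this]
  rw [Finset.sum_subset (Finset.subset_univ d.support) (fun i _ hi => by simpa using hi)]
  rw [Fin.sum_univ_four]

/-- the restriction of a form to the curve -/
noncomputable def res (F : MvPolynomial (Fin (3 + 1)) K) : Polynomial K :=
  ∑ d ∈ F.support, Polynomial.monomial (wt d) (coeff d F)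

lemma eval_res (F : MvPolynomial (Fin (3 + 1)) K) (t : ℕ) :
    (res F).eval (t : K) = eval (vec K t) F := by
  rw [res, Polynomial.eval_finsetSum, eval_eq']
  refine Finset.sum_congr rfl fun d _ => ?_
  rw [Polynomial.eval_monomial, Fin.prod_univ_four]
  simp only [vec, ex, wt]
  simp only [Matrix.cons_val_zero, Matrix.cons_val_one, Matrix.cons_val]
  ring

lemma natDegree_res {F : MvPolynomial (Fin (3 + 1)) K} (hF : F.IsHomogeneous 5) :
    (res F).natDegree ≤ 45 := by
  rw [res]
  refine Polynomial.natDegree_sum_le_of_forall_le _ _ fun d hd => ?_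
  refine (Polynomial.natDegree_monomial_le _).trans ?_
  have := sum_of_mem hF hd
  simp only [wt]
  omega

lemma res_eq_zero [CharZero K] {F : MvPolynomial (Fin (3 + 1)) K} (hF : F.IsHomogeneous 5)
    (hv : ∀ t : ℕ, t ∈ Set.Icc 1 46 → eval (vec K t) F = 0) : res F = 0 := by
  classical
  by_contra hne
  have hsub : ((Finset.Icc 1 46).image (fun t : ℕ => (t : K))).val ≤ (res F).roots := by
    rw [Multiset.le_iff_subset (Finset.nodup _)]
    intro x hx
    rw [Finset.mem_val, Finset.mem_image] at hx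
    obtain ⟨t, ht, rfl⟩ := hx
    rw [Polynomial.mem_roots hne, Polynomial.IsRoot, eval_res]
    exact hv t (by simpa using ht)
  have h1 := Multiset.card_le_card hsub
  rw [Finset.card_val, Finset.card_image_of_injective _ Nat.cast_injective, Nat.card_Icc] at h1
  have h2 := Polynomial.card_roots' (res F)
  have h3 := natDegree_res hF
  omega

/-- index of the twenty bad monomials -/
abbrev J : Type := Bool × {t : Fin 3 × Fin 3 × Fin 3 // (t.1 : ℕ) + t.2.1 + t.2.2 ≤ 2}

lemma card_J : Fintype.card J = 20 := by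
  rw [Fintype.card_prod, Fintype.card_bool]
  rfl

/-- the bad monomials -/
noncomputable def mon (j : J) : Fin (3 + 1) →₀ ℕ :=
  Finsupp.equivFunOnFinite.symm
    (if j.1 then ![2 - j.2.1.1 - j.2.1.2.1 - j.2.1.2.2, j.2.1.1 + 3, j.2.1.2.1, j.2.1.2.2]
    else ![2 - j.2.1.1 - j.2.1.2.1 - j.2.1.2.2, j.2.1.1, j.2.1.2.1 + 3, j.2.1.2.2])

lemma eq_zero_of_bad [CharZero K] {F : MvPolynomial (Fin (3 + 1)) K} (hF : F.IsHomogeneous 5)
    (hv : ∀ t : ℕ, t ∈ Set.Icc 1 46 → eval (vec K t) F = 0)
    (hbad : ∀ j : J, coeff (mon j) F = 0) : F = 0 := by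
  have hgood : ∀ d ∈ F.support, d 1 ≤ 2 ∧ d 2 ≤ 2 := by
    intro d hd
    have hs := sum_of_mem hF hd
    constructor
    · by_contra h
      apply mem_support_iff.1 hd
      have hj := hbad (true, ⟨(⟨d 1 - 3, by omega⟩, ⟨d 2, by omega⟩, ⟨d 3, by omega⟩), by
        simp only; omega⟩)
      convert hj using 2
      ext i
      fin_cases i <;> simp [mon] <;> omega
    · by_contra h
      apply mem_support_iff.1 hd
      have hj := hbad (false, ⟨(⟨d 1, by omega⟩, ⟨d 2 - 3, by omega⟩, ⟨d 3, by omega⟩), by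
        simp only; omega⟩)
      convert hj using 2
      ext i
      fin_cases i <;> simp [mon] <;> omega
  have hres := res_eq_zero hF hv
  by_contra hne
  obtain ⟨d, hd⟩ := Finset.nonempty_iff_ne_empty.2
    (fun h => hne (MvPolynomial.support_eq_empty.1 h) : F.support ≠ ∅)
  have h1 := congrArg (fun q => Polynomial.coeff q (wt d)) hres
  simp only [Polynomial.coeff_zero] at h1
  rw [res, Polynomial.finsetSum_coeff, Finset.sum_eq_single d] at h1
  · rw [Polynomial.coeff_monomial, if_pos rfl] at h1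
    exact mem_support_iff.1 hd h1
  · intro d' hd' hne'
    rw [Polynomial.coeff_monomial, if_neg]
    intro hw
    apply hne'
    have g1 := hgood d hd
    have g2 := hgood d' hd'
    have s1 := sum_of_mem hF hd
    have s2 := sum_of_mem hF hd'
    simp only [wt] at hw
    ext i
    fin_cases i <;> simp <;> omega
  · intro h
    exact absurd hd h

lemma eval_of_mem {F : MvPolynomial (Fin (3 + 1)) K} {Z : Set (Projectivization K (Fin (3 + 1) → K))}
    (hF : F ∈ vanishingIdeal Z) {z : Projectivization K (Fin (3 + 1) → K)} (hz : z ∈ Z) :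
    eval z.rep F = 0 := by
  have : vanishingIdeal Z ≤ RingHom.ker (eval z.rep) := by
    rw [vanishingIdeal, Ideal.span_le]
    rintro G ⟨e, -, hG⟩
    exact hG z hz
  exact this hF

lemma finrank_le [CharZero K] :
    Module.finrank K (degreePart (vanishingIdeal (ZZ K)) 5) ≤ 20 := by
  let L : degreePart (vanishingIdeal (ZZ K)) 5 →ₗ[K] (J → K) :=
    LinearMap.pi fun j => (MvPolynomial.lcoeff K (mon j)).comp (Submodule.subtype _)
  have hL : Function.Injective L := by
    rw [← LinearMap.ker_eq_bot, LinearMap.ker_eq_bot']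
    rintro ⟨F, hF1, hF2⟩ h
    have h2 : F = 0 := by
      refine eq_zero_of_bad hF1 ?_ ?_
      · intro t ht
        have := eval_of_mem (z := pt K t) hF2 ⟨t, ht, rfl⟩
        rw [pt, eval_rep_mk hF1] at this
        exact this
      · intro j
        exact congrFun h j
    exact Subtype.ext h2
  have h1 := LinearMap.finrank_le_finrank_of_injective hL
  rw [Module.finrank_fintype_fun_eq_card, card_J] at h1
  exact h1

end Dimension

/-- For every algebraically closed field `K` of characteristic zero there are `n ≥ 3`, a finite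
non-degenerate set `Z` of points of projective `n`-space in linear general position and a degree
`d ≥ 2` such that `Z` admits an unexpected hypersurface of degree `d` with multiplicity `d - 1`
at a general point. -/
theorem result (K : Type*) [Field K] [IsAlgClosed K] [CharZero K] :
    ∃ n : ℕ, 3 ≤ n ∧ ∃ Z : Set (Projectivization K (Fin (n + 1) → K)),
      Z.Finite ∧ IsNondegenerate Z ∧ InLinearGeneralPosition Z ∧
      ∃ d : ℕ, 2 ≤ d ∧ HasUnexpectedHypersurface Z d (d - 1) := by
  refine ⟨3, le_rfl, ZZ K, ZZ_finite, ZZ_nondeg, ZZ_lgp, 5, by norm_num, GP K, GP_ne_zero,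
    ⟨5, GP_isHomogeneous⟩, ?_⟩
  intro P hP
  have h20 := finrank_le (K := K)
  have hch : Nat.choose (5 - 1 + 3 - 1) 3 = 20 := by decide
  have hpos : 0 < Module.finrank K (degreePart (vanishingIdeal (ZZ K)
      ⊓ vanishingIdeal {P} ^ (5 - 1)) 5) := by
    have : Module.Finite K (homogeneousSubmodule (Fin (3 + 1)) K 5) :=
      Module.Finite.iff_fg.2 (homogeneousSubmodule_fg _ _ _)
    have : Module.Finite K (degreePart (vanishingIdeal (ZZ K)
        ⊓ vanishingIdeal {P} ^ (5 - 1)) 5) :=
      Module.Finite.of_injective (Submodule.inclusion inf_le_left)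
        (Submodule.inclusion_injective _)
    have hne : (⟨quintic P.rep, quintic_isHomogeneous _, quintic_mem_vanishing _,
        quintic_mem_pow P (fun h => hP (by simp [GP, h]))⟩ :
        degreePart (vanishingIdeal (ZZ K) ⊓ vanishingIdeal {P} ^ (5 - 1)) 5) ≠ 0 := by
      intro h
      exact quintic_ne_zero P.rep hP (congrArg Subtype.val h)
    have := nontrivial_of_ne _ _ hne
    exact Module.finrank_pos
  rw [hch]
  have : ((Module.finrank K (degreePart (vanishingIdeal (ZZ K)) 5) : ℤ) - ((20 : ℕ) : ℤ)) ≤ 0 := by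
    have : (Module.finrank K (degreePart (vanishingIdeal (ZZ K)) 5) : ℤ) ≤ 20 := by
      exact_mod_cast h20
    push_cast
    linarith
  rw [max_eq_left this]
  exact_mod_cast hpos

end Pool.Agent.Results.MP_b2f0ea_ag.PowerCurve
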